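import Pool.Agent.H58.AE.FIN

set_option autoImplicit false

namespace Pool.Agent.Results.MP_ae1dc2_lc.SquareStepUp

/-- For every singular cardinal `κ` such that `2 ^ κ = 2 ^< κ`, or `2 ^ κ = (2 ^< κ)⁺` and Jensen's
square holds at `2 ^< κ`, and for every cardinal `ρ`: if `cf κ ↛ (cf κ, (3)_ρ)²` then
`2 ^ κ ↛ (κ, (4)_ρ)³`. -/
theorem result :
    ∀ (κ ρ : Cardinal.{0}), Cardinal.aleph0 ≤ κ → Ordinal.cof (Cardinal.ord κ) < κ →
    ((2 : Cardinal.{0}) ^ κ = Cardinal.powerlt 2 κ ∨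
      ((2 : Cardinal.{0}) ^ κ = Order.succ (Cardinal.powerlt 2 κ) ∧
        Pool.H58.AE.Square (Cardinal.powerlt 2 κ))) →
    ∀ (α β ι : Type),
      Cardinal.mk α = (2 : Cardinal.{0}) ^ κ →
      Cardinal.mk β = Ordinal.cof (Cardinal.ord κ) →
      Cardinal.mk ι = ρ →
      (∃ g : Finset β → Option ι,
        (∀ H : Set β, Cardinal.mk H = Ordinal.cof (Cardinal.ord κ) →
          ∃ s : Finset β, (↑s : Set β) ⊆ H ∧ s.card = 2 ∧ g s ≠ none) ∧
        (∀ i : ι, ∀ s : Finset β, s.card = 3 →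
          ∃ t : Finset β, t ⊆ s ∧ t.card = 2 ∧ g t ≠ some i)) →
      (∃ f : Finset α → Option ι,
        (∀ H : Set α, Cardinal.mk H = κ →
          ∃ s : Finset α, (↑s : Set α) ⊆ H ∧ s.card = 3 ∧ f s ≠ none) ∧
        (∀ i : ι, ∀ s : Finset α, s.card = 4 →
          ∃ t : Finset α, t ⊆ s ∧ t.card = 3 ∧ f t ≠ some i)) :=
  Pool.H58.AE.main

end Pool.Agent.Results.MP_ae1dc2_lc.SquareStepUp
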